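import Mathlib

/-!
# Zagier's groups for a number field: definitions

`K` is a number field, `X ⊆ K` a set (for Zagier's conjecture: `X = K ∖ {0,1}`), `L n : ℂ → ℝ` the
functions `L_n` (for Zagier's conjecture: the single valued polylogarithms), `n ≥ 2`.
-/

set_option autoImplicit false

namespace Pool.Agent.T9h5.Zagier

open NumberField
open scoped TensorProduct

/-! ### `ℚ`-vector spaces -/

section vec

variable (A B : Type) [AddCommGroup A] [Module ℚ A] [AddCommGroup B] [Module ℚ B]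

/-- `A ⊗ B` over `ℚ`. -/
def Tens : Type := A ⊗[ℚ] B

noncomputable instance : AddCommGroup (Tens A B) := (inferInstance : AddCommGroup (A ⊗[ℚ] B))
noncomputable instance : Module ℚ (Tens A B) := (inferInstance : Module ℚ (A ⊗[ℚ] B))

/-- `Λ² A` over `ℚ`. -/
def Ext2 : Type := ⋀[ℚ]^2 A

noncomputable instance : AddCommGroup (Ext2 A) := (inferInstance : AddCommGroup (⋀[ℚ]^2 A))
noncomputable instance : Module ℚ (Ext2 A) := (inferInstance : Module ℚ (⋀[ℚ]^2 A))

variable {A B}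

/-- `a ⊗ b`. -/
def ten (a : A) (b : B) : Tens A B := a ⊗ₜ[ℚ] b

/-- `a ∧ b`. -/
noncomputable def wed (a b : A) : Ext2 A := exteriorPower.ιMulti ℚ 2 ![a, b]

/-- `A/S`. -/
def Quo (S : Submodule ℚ A) : Type := A ⧸ S

noncomputable instance (S : Submodule ℚ A) : AddCommGroup (Quo S) :=
  (inferInstance : AddCommGroup (A ⧸ S))
noncomputable instance (S : Submodule ℚ A) : Module ℚ (Quo S) :=
  (inferInstance : Module ℚ (A ⧸ S))

/-- the class of `a` in `A/S`. -/
def toQuo (S : Submodule ℚ A) (a : A) : Quo S := Submodule.Quotient.mk a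

end vec

section

variable (K : Type) [Field K] [NumberField K]

/-- `K^× ⊗ ℚ`. -/
def V : Type := ℚ ⊗[ℤ] Additive Kˣ

noncomputable instance : AddCommGroup (V K) := (inferInstance : AddCommGroup (ℚ ⊗[ℤ] Additive Kˣ))
noncomputable instance : Module ℚ (V K) := (inferInstance : Module ℚ (ℚ ⊗[ℤ] Additive Kˣ))

/-- The infinite places which occur in weight `n`: all infinite places if `n` is odd, the complex
ones if `n` is even. -/
def Al (n : ℕ) : Type := {v : InfinitePlace K // v.IsReal → Odd n}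

/-- `∏_v ℝ`, over the infinite places which occur in weight `n`. -/
def RV (n : ℕ) : Type := Al K n → ℝ

noncomputable instance (n : ℕ) : AddCommGroup (RV K n) := (inferInstance : AddCommGroup (Al K n → ℝ))
noncomputable instance (n : ℕ) : Module ℝ (RV K n) := (inferInstance : Module ℝ (Al K n → ℝ))
noncomputable instance (n : ℕ) : Module ℚ (RV K n) := (inferInstance : Module ℚ (Al K n → ℝ))

/-- `d_n = r_1 + r_2` for odd `n` and `d_n = r_2` for even `n`. -/
noncomputable def dn (n : ℕ) : ℕ :=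
  if Odd n then InfinitePlace.nrRealPlaces K + InfinitePlace.nrComplexPlaces K
  else InfinitePlace.nrComplexPlaces K

variable {K}

open Classical in
/-- the class of `x` in `K^× ⊗ ℚ` (`0` for `x = 0`). -/
noncomputable def cq (x : K) : V K :=
  (1 : ℚ) ⊗ₜ[ℤ] (if h : x = 0 then (0 : Additive Kˣ) else Additive.ofMul (Units.mk0 x h))

variable (X : Set K) (L : ℕ → ℂ → ℝ)

/-- `ℚ[X]`. -/
def QX : Type := X →₀ ℚ

noncomputable instance : AddCommGroup (QX X) := (inferInstance : AddCommGroup (X →₀ ℚ))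
noncomputable instance : Module ℚ (QX X) := (inferInstance : Module ℚ (X →₀ ℚ))

variable {X} in
/-- `[x] ∈ ℚ[X]`. -/
noncomputable def br (x : X) : QX X := Finsupp.single x (1 : ℚ)

/-- the linear map `ℚ[X] → A` with `[x] ↦ f x`. -/
noncomputable def lin {A : Type} [AddCommGroup A] [Module ℚ A] (f : X → A) : QX X →ₗ[ℚ] A :=
  Finsupp.linearCombination ℚ f

/-- the regulator `ℚ[X] → ∏_v ℝ`, `[x] ↦ (L_n(σ_v(x)))_v`. -/
noncomputable def reg (n : ℕ) : QX X →ₗ[ℚ] RV K n :=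
  lin X (fun x v => L n (v.1.embedding (x : K)))

/-- `δ_2 : ℚ[X] → Λ²(K^× ⊗ ℚ)`, `[x] ↦ (1 - x) ∧ x`. -/
noncomputable def delta2 : QX X →ₗ[ℚ] Ext2 (V K) :=
  lin X (fun x => wed (cq (1 - (x : K))) (cq (x : K)))

/-- `ℚ[X] → (ℚ[X]/S) ⊗ K^×`, `[x] ↦ [x] ⊗ x`. -/
noncomputable def deltaS (S : Submodule ℚ (QX X)) : QX X →ₗ[ℚ] Tens (Quo S) (V K) :=
  lin X (fun x => ten (toQuo S (br x)) (cq (x : K)))

/-- The kernels `A_n ⊆ ℚ[X]`, `n ≥ 2`, for given groups of relations `S_m ⊆ ℚ[X]`: `A_2 = ker δ_2`,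
and `A_(m+1)` is the kernel of `δ_(m+1) : ℚ[X] → (ℚ[X]/S_m) ⊗ K^×`, `[x] ↦ [x] ⊗ x`. -/
noncomputable def A (S : ℕ → Submodule ℚ (QX X)) (n : ℕ) : Submodule ℚ (QX X) :=
  if n = 2 then LinearMap.ker (delta2 X) else LinearMap.ker (deltaS X (S (n - 1)))

/-- The elements of `A_n` all of whose regulators `L_n(σ_v(·))` vanish. -/
noncomputable def A0 (S : ℕ → Submodule ℚ (QX X)) (n : ℕ) : Submodule ℚ (QX X) :=
  A X S n ⊓ LinearMap.ker (reg X L n)

/-- Zagier's groups of relations `C_n(K) ⊗ ℚ`: `C_n` consists of the elements of `A_n` all of whose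
regulators vanish, `n ≥ 2`, where `A_n` is formed with the groups `C_m`, `m < n`. -/
def IsC (C : ℕ → Submodule ℚ (QX X)) : Prop := ∀ n, 2 ≤ n → C n = A0 X L C n

/-- `A_n/C_n`. -/
def Bl (S : ℕ → Submodule ℚ (QX X)) (n : ℕ) : Type :=
  A X S n ⧸ (S n).submoduleOf (A X S n)

noncomputable instance (S : ℕ → Submodule ℚ (QX X)) (n : ℕ) : AddCommGroup (Bl X S n) :=
  (inferInstance : AddCommGroup (A X S n ⧸ (S n).submoduleOf (A X S n)))
noncomputable instance (S : ℕ → Submodule ℚ (QX X)) (n : ℕ) : Module ℚ (Bl X S n) :=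
  (inferInstance : Module ℚ (A X S n ⧸ (S n).submoduleOf (A X S n)))

/-- polylogarithm series. -/
noncomputable def Lic (s : ℕ) (z : ℂ) : ℂ := ∑' k : ℕ, z ^ (k + 1) / ((k : ℂ) + 1) ^ s

/-- Zagier's single valued polylogarithm for `|z| < 1`: real part (`n` odd) or imaginary part (`n`
even) of `∑_{k<n} (2^k B_k / k!) log^k|z| Li_{n-k}(z)`. -/
noncomputable def Lcv (n : ℕ) (z : ℂ) : ℝ :=
  if Odd n then
    (∑ k ∈ Finset.range n,
      ((2 ^ k * (bernoulli k : ℝ) / (k.factorial : ℝ) * Real.log ‖z‖ ^ k : ℝ) : ℂ) *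
      Lic (n - k) z).re
  else
    (∑ k ∈ Finset.range n,
      ((2 ^ k * (bernoulli k : ℝ) / (k.factorial : ℝ) * Real.log ‖z‖ ^ k : ℝ) : ℂ) *
      Lic (n - k) z).im

/-- `X` contains all `x ≠ 0` with `|x|_v < 1` for all `v | ∞`. -/
def ContainsDisc : Prop :=
  ∀ x : K, x ≠ 0 → (∀ v : InfinitePlace K, ‖v.embedding x‖ < 1) → x ∈ X

/-- `L n`, `n ≥ 2`, is given by Zagier's formula on `0 < |z| < 1`. -/
def IsZagier (L : ℕ → ℂ → ℝ) : Prop :=
  ∀ (n : ℕ) (z : ℂ), 2 ≤ n → 0 < ‖z‖ → ‖z‖ < 1 → L n z = Lcv n z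

/-- The regulators of the elements of `A_n` (formed with the groups of relations `S_m`) span
`ℝ^(d_n)`. -/
def Spans (S : ℕ → Submodule ℚ (QX X)) (n : ℕ) : Prop :=
  Submodule.span ℝ {r | ∃ α ∈ A X S n, r = reg X L n α} = ⊤

/-- The bound `dim A_m/C_m ≤ d_m`. -/
def Bound (C : ℕ → Submodule ℚ (QX X)) (m : ℕ) : Prop := Module.rank ℚ (Bl X C m) ≤ dn K m

/-- The regulators of the elements of `A_n` exhaust every `ℚ`-vector space `Λ ⊆ ℝ^(d_n)` of dimension
at most `d_n` in which they lie. -/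
def Exhausts (C : ℕ → Submodule ℚ (QX X)) (n : ℕ) : Prop :=
  ∀ Λ : Submodule ℚ (RV K n), (∀ α ∈ A X C n, reg X L n α ∈ Λ) →
    Module.rank ℚ Λ ≤ dn K n → ∀ r ∈ Λ, ∃ α ∈ A X C n, reg X L n α = r

/-- Every element of `A_m` whose regulators vanish lies in `S_m`, and the dimension of the group of
the regulators of the elements of `A_m` is at most `d_m` (`A_m` is formed with the groups `S`). -/
def Adapted (S : ℕ → Submodule ℚ (QX X)) (m : ℕ) : Prop :=
  (∀ α ∈ A X S m, reg X L m α = 0 → α ∈ S m) ∧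
    Module.rank ℚ ((A X S m).map (reg X L m)) ≤ dn K m

end

end Pool.Agent.T9h5.Zagier
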