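import Pool.Agent.T9h5.Zagier.Defs
import Pool.Agent.T9h5.NF.Zag

/-!
# Zagier's conjecture (rank part) from `SpanPerN`
-/

set_option autoImplicit false
set_option linter.unusedSectionVars false

namespace Pool.Agent.T9h5.Zagier

open NumberField

variable {K : Type} [Field K] [NumberField K] {X : Set K} {L : ℕ → ℂ → ℝ}

theorem delta2_eq : LinearMap.ker (delta2 X) = LinearMap.ker (NF.delta2 X) := rfl

theorem A_eq (S : ℕ → Submodule ℚ (QX X)) (n : ℕ) (hn : 2 ≤ n) : A X S n = NF.A X S n := by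
  obtain ⟨k, rfl⟩ : ∃ k, n = k + 2 := ⟨n - 2, by omega⟩
  unfold A
  cases k with
  | zero =>
    rw [if_pos rfl]
    rfl
  | succ k =>
    rw [if_neg (by omega)]
    rfl

theorem exists_C (X : Set K) (L : ℕ → ℂ → ℝ) : ∃ C, IsC X L C := by
  refine ⟨NF.C X L, fun n hn => ?_⟩
  unfold A0
  rw [A_eq _ n hn]
  exact NF.C_eq n hn

theorem rank_Bl {C : ℕ → Submodule ℚ (QX X)} (hC : IsC X L C) (n : ℕ) (hn : 2 ≤ n) :
    Module.rank ℚ (Bl X C n) = Module.rank ℚ ((A X C n).map (reg X L n)) := by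
  let r : A X C n →ₗ[ℚ] RV K n := (reg X L n).domRestrict (A X C n)
  have h1 : (C n).submoduleOf (A X C n) = LinearMap.ker r := by
    rw [hC n hn]
    ext a
    constructor
    · intro h
      exact h.2
    · intro h
      exact ⟨a.2, h⟩
  have h2 : LinearMap.range r = (A X C n).map (reg X L n) := by
    ext a
    constructor
    · rintro ⟨b, rfl⟩
      exact ⟨b.1, b.2, rfl⟩
    · rintro ⟨b, hb, rfl⟩
      exact ⟨⟨b, hb⟩, rfl⟩
  have h3 : Module.rank ℚ (Bl X C n) =
      Module.rank ℚ (A X C n ⧸ (C n).submoduleOf (A X C n)) := rfl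
  rw [h3, ← h2, h1]
  exact LinearEquiv.rank_eq (r.quotKerEquivRange)

theorem span_top (hK : T9h77.NF.SpanPerN K) (hX : ContainsDisc X) (hL : IsZagier L)
    (S : ℕ → Submodule ℚ (QX X)) (n : ℕ) (hn : 2 ≤ n)
    (h : ∀ m, 2 ≤ m → m < n → Adapted X L S m) : Spans X L S n := by
  have h1 := NF.general (S := S) (X := X) (L := L) hK hX hL n hn (by
    intro m hm hlt
    have h2 := h m hm hlt
    unfold Adapted at h2
    rw [A_eq S m hm] at h2
    exact h2)
  unfold Spans
  rw [A_eq S n hn]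
  exact h1

theorem adapted {C : ℕ → Submodule ℚ (QX X)} (hC : IsC X L C) (m : ℕ) (hm : 2 ≤ m)
    (h : Bound X C m) : Adapted X L C m := by
  refine ⟨fun α hα hr => ?_, ?_⟩
  · rw [hC m hm]
    exact ⟨hα, hr⟩
  · rw [← rank_Bl hC m hm]
    exact h

theorem main (hK : T9h77.NF.SpanPerN K) (hX : ContainsDisc X) (hL : IsZagier L)
    {C : ℕ → Submodule ℚ (QX X)} (hC : IsC X L C) :
    (∀ n, 2 ≤ n → (∀ m, 2 ≤ m → m < n → Bound X C m) → Spans X L C n) ∧
    ∀ n, 2 ≤ n → (∀ m, 2 ≤ m → m ≤ n → Bound X C m) →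
      Module.rank ℚ (Bl X C n) = dn K n ∧ Exhausts X L C n := by
  have h1 : ∀ n, 2 ≤ n → (∀ m, 2 ≤ m → m < n → Bound X C m) → Spans X L C n := fun n hn h =>
    span_top hK hX hL C n hn fun m hm hlt => adapted hC m hm (h m hm hlt)
  refine ⟨h1, fun n hn h => ?_⟩
  have h2 := h1 n hn fun m hm hlt => h m hm hlt.le
  have h3 : Submodule.span ℝ (((A X C n).map (reg X L n) : Submodule ℚ (RV K n)) : Set (RV K n)) =
      ⊤ := by
    rw [← h2]
    congr 1
    ext r
    constructor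
    · rintro ⟨α, hα, rfl⟩
      exact ⟨α, hα, rfl⟩
    · rintro ⟨α, hα, rfl⟩
      exact ⟨α, hα, rfl⟩
  have h4 : Module.rank ℚ ((A X C n).map (reg X L n)) ≤ Fintype.card (NF.Al K n) := by
    rw [NF.card_Al]
    exact (adapted hC n hn (h n hn le_rfl)).2
  obtain ⟨hfin, hcard⟩ := NF.finrank_eq (I := NF.Al K n) ((A X C n).map (reg X L n)) h4 h3
  have hfin' : Module.Finite ℚ ((A X C n).map (reg X L n)) := hfin
  have h5 : Module.rank ℚ ((A X C n).map (reg X L n)) = dn K n := by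
    rw [← Module.finrank_eq_rank]
    have : Module.finrank ℚ ((A X C n).map (reg X L n)) = dn K n := hcard.trans (NF.card_Al K n)
    rw [this]
  refine ⟨by rw [rank_Bl hC n hn]; exact h5, fun Λ hle hΛ r hr => ?_⟩
  have h6 : Module.Finite ℚ Λ := by
    rw [← Module.rank_lt_aleph0_iff]
    exact lt_of_le_of_lt hΛ (Cardinal.natCast_lt_aleph0)
  have hle' : (A X C n).map (reg X L n) ≤ Λ := by
    rintro _ ⟨α, hα, rfl⟩
    exact hle α hα
  have h8 : (A X C n).map (reg X L n) = Λ := by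
    refine Submodule.eq_of_le_of_finrank_le hle' ?_
    rw [← Module.finrank_eq_rank] at hΛ h5
    have h6 : Module.finrank ℚ Λ ≤ dn K n := by exact_mod_cast hΛ
    have h7 : Module.finrank ℚ ((A X C n).map (reg X L n)) = dn K n := by exact_mod_cast h5
    omega
  rw [← h8] at hr
  obtain ⟨α, hα, rfl⟩ := hr
  exact ⟨α, hα, rfl⟩

end Pool.Agent.T9h5.Zagier
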